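import Pool.Agent.H.MP_f1c158_al.Rep

set_option autoImplicit false
set_option maxHeartbeats 400000

namespace Pool.Agent.H.MP_f1c158_al

open Matrix TensorProduct Finset

abbrev Ix := ZMod 4 × Fin 5 × Fin 5
abbrev FA := FreeAlgebra ℚ Ix

noncomputable def g0 (r : ZMod 4) : Matrix (Fin 5) (Fin 5) FA :=
  of fun p q => FreeAlgebra.ι ℚ (r, p, q)

def rel (a b : FA) : Prop := ∃ r p q, b = (1 : Matrix (Fin 5) (Fin 5) FA) p q ∧
  (a = (g0 r * (g0 (r + 1))ᵀ) p q ∨ a = ((g0 (r + 1))ᵀ * g0 r) p q)

def H : Type := RingQuot rel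

noncomputable instance : Ring H := inferInstanceAs (Ring (RingQuot rel))
noncomputable instance : Algebra ℚ H := inferInstanceAs (Algebra ℚ (RingQuot rel))

noncomputable def mk : FA →ₐ[ℚ] H := RingQuot.mkAlgHom ℚ rel

noncomputable def g (r : ZMod 4) : Matrix (Fin 5) (Fin 5) H := of fun p q => mk (FreeAlgebra.ι ℚ (r, p, q))

lemma good_g : Good g := fun r => by
  constructor <;> ext p q
  · have : mk _ = mk _ := RingQuot.mkAlgHom_rel ℚ (s := rel) ⟨r, p, q, rfl, Or.inl rfl⟩
    simpa [g0, g, mul_apply, one_apply, apply_ite mk] using this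
  · have : mk _ = mk _ := RingQuot.mkAlgHom_rel ℚ (s := rel) ⟨r, p, q, rfl, Or.inr rfl⟩
    simpa [g0, g, mul_apply, one_apply, apply_ite mk] using this

noncomputable def lf {B : Type} [Ring B] [Algebra ℚ B] (Y : ZMod 4 → Matrix (Fin 5) (Fin 5) B)
    (h : Good Y) : H →ₐ[ℚ] B :=
  RingQuot.liftAlgHom ℚ ⟨FreeAlgebra.lift ℚ fun x : Ix => Y x.1 x.2.1 x.2.2, by
    rintro _ _ ⟨r, p, q, rfl, rfl | rfl⟩
    · simpa [g0, mul_apply, one_apply, apply_ite (FreeAlgebra.lift ℚ _)] using
        congrFun (congrFun (h r).1 p) q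
    · simpa [g0, mul_apply, one_apply, apply_ite (FreeAlgebra.lift ℚ _)] using
        congrFun (congrFun (h r).2 p) q⟩

@[simp] lemma lf_g {B : Type} [Ring B] [Algebra ℚ B] (Y : ZMod 4 → Matrix (Fin 5) (Fin 5) B)
    (h : Good Y) (r : ZMod 4) (p q : Fin 5) : lf Y h (g r p q) = Y r p q :=
  (RingQuot.liftAlgHom_mkAlgHom_apply _ _ _ _).trans (FreeAlgebra.lift_ι_apply _ _)

lemma H_ind {P : H → Prop} (a : H) (h0 : ∀ c, P (algebraMap ℚ H c))
    (h1 : ∀ r p q, P (g r p q)) (hm : ∀ a b, P a → P b → P (a * b))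
    (ha : ∀ a b, P a → P b → P (a + b)) : P a := by
  obtain ⟨a, rfl⟩ : ∃ b, mk b = a := RingQuot.mkAlgHom_surjective ℚ rel a
  induction a using FreeAlgebra.induction with
  | grade0 c => rw [AlgHom.commutes]; exact h0 c
  | grade1 x => exact h1 x.1 x.2.1 x.2.2
  | mul a b p q => rw [map_mul]; exact hm _ _ p q
  | add a b p q => rw [map_add]; exact ha _ _ p q

lemma H_ext {B : Type} [Semiring B] [Algebra ℚ B] {f f' : H →ₐ[ℚ] B}
    (h : ∀ r p q, f (g r p q) = f' (g r p q)) : f = f' := AlgHom.ext fun a =>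
  H_ind (P := fun a => f a = f' a) a (fun c => by simp) h (fun a b p q => by simp [p, q])
    fun a b p q => by simp [p, q]

lemma gA (r : ZMod 4) (p q : Fin 5) : ∑ l, g r p l * g (r + 1) q l = if p = q then 1 else 0 :=
  congrFun (congrFun (good_g r).1 p) q

lemma gB (r : ZMod 4) (p q : Fin 5) : ∑ l, g (r + 1) l p * g r l q = if p = q then 1 else 0 :=
  congrFun (congrFun (good_g r).2 p) q

noncomputable def cm : H →ₐ[ℚ] H ⊗[ℚ] H := lf (fun r => of fun p q => ∑ l, g r p l ⊗ₜ g r l q) fun r => by
  constructor <;> ext p q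
  · simp only [mul_apply, of_apply, transpose_apply, sum_mul_sum, Algebra.TensorProduct.tmul_mul_tmul]
    rw [sum_comm, sum_congr rfl fun _ _ => sum_comm]
    simp only [← tmul_sum, gA, tmul_ite, sum_ite_eq, mem_univ, if_true, ← sum_tmul, ite_tmul, one_apply,
      Algebra.TensorProduct.one_def]
  · simp only [mul_apply, of_apply, transpose_apply, sum_mul_sum, Algebra.TensorProduct.tmul_mul_tmul]
    rw [sum_comm, sum_congr rfl fun _ _ => sum_comm]
    simp only [← sum_tmul, gB, ite_tmul, sum_ite_eq, mem_univ, if_true, ← tmul_sum, tmul_ite, one_apply,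
      Algebra.TensorProduct.one_def]

noncomputable def cu : H →ₐ[ℚ] ℚ := lf (fun _ => 1) fun r => by simp

lemma cm_g (r : ZMod 4) (p q : Fin 5) : cm (g r p q) = ∑ l, g r p l ⊗ₜ g r l q := lf_g _ _ _ _ _
lemma cu_g (r : ZMod 4) (p q : Fin 5) : cu (g r p q) = if p = q then 1 else 0 := lf_g _ _ _ _ _

noncomputable instance : Bialgebra ℚ H := Bialgebra.ofAlgHom cm cu
  (H_ext fun r p q => by
    simp only [AlgHom.comp_apply, cm_g, map_sum, Algebra.TensorProduct.map_tmul, AlgHom.id_apply,
      sum_tmul, tmul_sum]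
    rw [sum_comm]; rfl)
  (H_ext fun r p q => by simp [cm_g, cu_g, ite_tmul])
  (H_ext fun r p q => by simp [cm_g, cu_g, tmul_ite])

noncomputable def an : H →ₐ[ℚ] Hᵐᵒᵖ := lf (fun r => of fun p q => MulOpposite.op (g (r + 1) q p)) fun r => by
  constructor <;> ext p q
  · simp only [mul_apply, of_apply, transpose_apply, ← MulOpposite.op_mul, ← Finset.op_sum, gB,
      one_apply]
    split_ifs <;> simp_all
  · simp only [mul_apply, of_apply, transpose_apply, ← MulOpposite.op_mul, ← Finset.op_sum, gA,
      one_apply]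
    split_ifs <;> simp_all

noncomputable def S : H →ₗ[ℚ] H := (MulOpposite.opLinearEquiv ℚ).symm.toLinearMap ∘ₗ an.toLinearMap

lemma S_g (r : ZMod 4) (p q : Fin 5) : S (g r p q) = g (r + 1) q p := by simp [S, an]
lemma S_mul (a b : H) : S (a * b) = S b * S a := by simp [S]
lemma S_one : S 1 = 1 := by simp [S]

noncomputable instance : HopfAlgebra ℚ H where
  antipode := S
  mul_antipode_rTensor_comul := LinearMap.ext fun a => by
    change LinearMap.mul' ℚ H (S.rTensor H (cm a)) = algebraMap ℚ H (cu a)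
    have k : ∀ (t : H ⊗[ℚ] H) b c, LinearMap.mul' ℚ H (S.rTensor H (t * b ⊗ₜ c)) =
        S b * LinearMap.mul' ℚ H (S.rTensor H t) * c := fun t b c => by
      induction t <;> simp_all [S_mul, mul_assoc, add_mul, mul_add]
    induction a using H_ind
    on_goal 4 => simp [*]
    on_goal 3 => rename_i a b p q
    · simp [Algebra.algebraMap_eq_smul_one, Algebra.TensorProduct.one_def, S_one]
    · simp [cm_g, cu_g, S_g, gB, apply_ite (algebraMap ℚ H)]
    · rw [map_mul cm, map_mul cu, map_mul (algebraMap ℚ H), ← q]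
      induction cm b with
      | zero => simp
      | add x y h1 h2 => simp only [mul_add, map_add, h1, h2]
      | tmul x y => rw [k, p, ← Algebra.commutes]; simp [mul_assoc]
  mul_antipode_lTensor_comul := LinearMap.ext fun a => by
    change LinearMap.mul' ℚ H (S.lTensor H (cm a)) = algebraMap ℚ H (cu a)
    have k : ∀ (t : H ⊗[ℚ] H) b c, LinearMap.mul' ℚ H (S.lTensor H (b ⊗ₜ c * t)) =
        b * LinearMap.mul' ℚ H (S.lTensor H t) * S c := fun t b c => by
      induction t <;> simp_all [S_mul, mul_assoc, add_mul, mul_add]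
    induction a using H_ind
    on_goal 4 => simp [*]
    on_goal 3 => rename_i a b p q
    · simp [Algebra.algebraMap_eq_smul_one, Algebra.TensorProduct.one_def, S_one]
    · simp [cm_g, cu_g, S_g, gA, apply_ite (algebraMap ℚ H)]
    · rw [map_mul cm, map_mul cu, map_mul (algebraMap ℚ H), ← p]
      induction cm a with
      | zero => simp
      | add x y h1 h2 => simp only [add_mul, map_add, h1, h2]
      | tmul x y => rw [k, q, mul_assoc, Algebra.commutes]; simp [mul_assoc]

abbrev T := TensorAlgebra ℚ V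

noncomputable def ro (r : ZMod 4) : T →ₐ[ℚ] Matrix (Fin 5) (Fin 5) T :=
  TensorAlgebra.lift ℚ
    { toFun := fun v => of fun p q => TensorAlgebra.ι ℚ (XX r p q v)
      map_add' := fun _ _ => by ext; simp
      map_smul' := fun _ _ => by ext; simp }

lemma ro_i (r : ZMod 4) (v : V) (p q : Fin 5) :
    ro r (TensorAlgebra.ι ℚ v) p q = TensorAlgebra.ι ℚ (XX r p q v) := by simp [ro]

noncomputable def Op (r : ZMod 4) : Matrix (Fin 5) (Fin 5) (Module.End ℚ T) :=
  of fun p q => entryLinearMap ℚ T p q ∘ₗ (ro r).toLinearMap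

@[simp] lemma Op_app (r : ZMod 4) (p q : Fin 5) (y : T) : Op r p q y = ro r y p q := rfl

lemma Op_mul (r : ZMod 4) (p q : Fin 5) (x y : T) : Op r p q (x * y) = ∑ l, Op r p l x * Op r l q y := by
  simp [mul_apply]

lemma Op_c (r : ZMod 4) (p q : Fin 5) (c : ℚ) :
    Op r p q (algebraMap ℚ T c) = if p = q then algebraMap ℚ T c else 0 := by
  simp [algebraMap_matrix_apply]

lemma good_Op : Good Op := fun r => by
  have h1 : ∀ y p q, ∑ l, Op r p l (Op (r + 1) q l y) = if p = q then y else 0 := fun y => by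
    induction y using TensorAlgebra.induction with
    | algebraMap c =>
      intro p q
      simp only [Op_c, apply_ite (Op r p _), map_zero, sum_ite_eq, mem_univ, if_true]
    | ι v =>
      intro p q
      have := LinearMap.congr_fun (congrFun (congrFun (good_XX r).1 p) q) v
      simp only [mul_apply, LinearMap.sum_apply, Module.End.mul_apply, transpose_apply] at this
      simp only [Op_app, ro_i, ← map_sum, this, one_apply]
      split_ifs <;> simp
    | add x y h h' => intro p q; simp only [map_add, sum_add_distrib, h, h']; split_ifs <;> simp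
    | mul x y h h' =>
      intro p q
      simp only [Op_mul, map_sum]
      rw [sum_comm, sum_congr rfl fun _ _ => sum_comm]
      simp only [← mul_sum, h', mul_ite, mul_zero, sum_ite_eq', mem_univ, if_true, ← sum_mul, h,
        ite_mul, zero_mul]
  have h2 : ∀ y p q, ∑ l, Op (r + 1) l p (Op r l q y) = if p = q then y else 0 := fun y => by
    induction y using TensorAlgebra.induction with
    | algebraMap c =>
      intro p q
      simp only [Op_c, apply_ite (Op (r + 1) _ p), map_zero, sum_ite_eq', mem_univ, if_true,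
        eq_comm (a := q)]
    | ι v =>
      intro p q
      have := LinearMap.congr_fun (congrFun (congrFun (good_XX r).2 p) q) v
      simp only [mul_apply, LinearMap.sum_apply, Module.End.mul_apply, transpose_apply] at this
      simp only [Op_app, ro_i, ← map_sum, this, one_apply]
      split_ifs <;> simp
    | add x y h h' => intro p q; simp only [map_add, sum_add_distrib, h, h']; split_ifs <;> simp
    | mul x y h h' =>
      intro p q
      simp only [Op_mul, map_sum]
      rw [sum_comm, sum_congr rfl fun _ _ => sum_comm]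
      simp only [← sum_mul, h, ite_mul, zero_mul, sum_ite_eq', mem_univ, if_true, ← mul_sum, h',
        mul_ite, mul_zero]
  constructor <;> ext1 p q <;> refine LinearMap.ext fun y => ?_
  · simp only [mul_apply, LinearMap.sum_apply, Module.End.mul_apply, transpose_apply, h1, one_apply]
    split_ifs <;> simp
  · simp only [mul_apply, LinearMap.sum_apply, Module.End.mul_apply, transpose_apply, h2, one_apply]
    split_ifs <;> simp

noncomputable def act : H →ₐ[ℚ] Module.End ℚ T := lf Op good_Op

lemma act_g (r : ZMod 4) (p q : Fin 5) : act (g r p q) = Op r p q := lf_g _ _ _ _ _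

lemma act_mul (h : H) : ∀ x y : T, act h (x * y) = TensorProduct.lift ((LinearMap.mul ℚ T).compl₁₂
    (act.toLinearMap.flip x) (act.toLinearMap.flip y)) (cm h) := by
  induction h using H_ind
  on_goal 4 => simp [*]
  on_goal 3 => rename_i a b p q
  all_goals intro x y
  · simp [Algebra.algebraMap_eq_smul_one, Algebra.TensorProduct.one_def]
  · simp [cm_g, act_g, mul_apply]
  · rw [map_mul act, map_mul cm, Module.End.mul_apply, q]
    induction cm b with
    | zero => simp
    | add s t h1 h2 => simp only [mul_add, map_add, h1, h2]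
    | tmul s t =>
      rw [lift.tmul, LinearMap.compl₁₂_apply, LinearMap.mul_apply', p]
      induction cm a <;> simp_all [add_mul]

lemma act_one (h : H) : act h 1 = algebraMap ℚ T (cu h) := by
  induction h using H_ind
  on_goal 4 => simp [*]
  on_goal 3 => rename_i a b p q
  · simp [Algebra.smul_def]
  · simp [act_g, cu_g, one_apply, apply_ite (algebraMap ℚ T)]
  · rw [map_mul, Module.End.mul_apply, q, Algebra.algebraMap_eq_smul_one, map_smul, p, map_mul, mul_comm,
      map_mul, Algebra.smul_def]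

lemma cen (y : T) : ∃ c : ℚ, ∀ p q, p ≤ 2 → 2 ≤ q →
    ro 0 y p q = if p = q then algebraMap ℚ T c else 0 := by
  induction y using TensorAlgebra.induction with
  | algebraMap c => exact ⟨c, fun p q _ _ => by simp [algebraMap_matrix_apply]⟩
  | ι v => exact ⟨0, fun p q hp hq => by simp [ro_i, XX0 0 p q hp hq]⟩
  | add x y h h' =>
    obtain ⟨c, h⟩ := h
    obtain ⟨d, h'⟩ := h'
    exact ⟨c + d, fun p q hp hq => by simp [h p q hp hq, h' p q hp hq]; split_ifs <;> simp⟩
  | mul x y h h' =>
    obtain ⟨c, h⟩ := h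
    obtain ⟨d, h'⟩ := h'
    refine ⟨c * d, fun p q hp hq => ?_⟩
    rw [map_mul, mul_apply, sum_eq_single 2 (fun l _ hl => ?_) (by simp), h p 2 hp le_rfl,
      h' 2 q le_rfl hq]
    · split_ifs <;> first | omega | simp
    · rcases lt_or_gt_of_ne hl with hl | hl
      · rw [h' l q hl.le hq, if_neg (by omega), mul_zero]
      · rw [h p l hp hl.le, if_neg (by omega), zero_mul]

lemma notPI (m : ℕ) (p : FreeAlgebra ℚ (Fin m)) (h : ∀ r : Fin m → T, FreeAlgebra.lift ℚ r p = 0) :
    p = 0 := by
  obtain ⟨v, f, hf⟩ := dual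
  let F : T →ₐ[ℚ] FreeAlgebra ℚ (Fin m) :=
    TensorAlgebra.lift ℚ (∑ i : Fin m, (f i).smulRight (FreeAlgebra.ι ℚ i))
  have : F.comp (FreeAlgebra.lift ℚ fun i : Fin m => TensorAlgebra.ι ℚ (v i)) = AlgHom.id _ _ := by
    ext i
    simp [F, hf, Fin.val_inj]
  rw [← AlgHom.id_apply (R := ℚ) p, ← this, AlgHom.comp_apply, h, map_zero]

end Pool.Agent.H.MP_f1c158_al
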