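import Mathlib

set_option autoImplicit false
set_option maxHeartbeats 400000

namespace Pool.Agent.H.MP_f1c158_al

open Finsupp Finset

abbrev Lt := ZMod 4 × Fin 3 × Fin 2
abbrev W := List Lt →₀ ℚ

def al (r : ZMod 4) : Fin 2 := if r = 0 ∨ r = 2 then 0 else 1
def be (r : ZMod 4) : Fin 3 := if r = 0 ∨ r = 2 then 0 else 1

abbrev isA (x y : Lt) : Prop := y.1 = x.1 + 1 ∧ x.2.2 = al x.1 ∧ y.2.2 = al x.1
abbrev isB (x y : Lt) : Prop := x.1 = y.1 + 1 ∧ x.2.1 = be y.1 ∧ y.2.1 = be y.1
abbrev lhs (x y : Lt) : Prop := isA x y ∨ isB x y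

def dl (x y : Lt) : ℚ :=
  if isA x y then (if x.2.1 = y.2.1 then 1 else 0) else (if x.2.2 = y.2.2 then 1 else 0)

def prs (x y : Lt) : Finset (Lt × Lt) :=
  if isA x y then (univ.erase (al x.1)).image fun a => ((x.1, x.2.1, a), (y.1, y.2.1, a))
  else (univ.erase (be y.1)).image fun i => ((x.1, i, x.2.2), (y.1, i, y.2.2))

lemma F1 {x y : Lt} {p : Lt × Lt} (hp : p ∈ prs x y) : p.1.1 = x.1 ∧ p.2.1 = y.1 := by
  unfold prs at hp
  split_ifs at hp <;> obtain ⟨a, -, rfl⟩ := mem_image.1 hp <;> exact ⟨rfl, rfl⟩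

lemma two (r : ZMod 4) : r + 1 + 1 ≠ r := by revert r; decide

lemma F2 {x y z : Lt} {p : Lt × Lt} (h : lhs x y) (hp : p ∈ prs x y) (hz : z.1 = y.1) :
    ¬ lhs p.1 z := by
  have := two x.1
  have := two y.1
  unfold prs at hp
  split_ifs at hp <;> obtain ⟨a, ha, rfl⟩ := mem_image.1 hp <;> grind

noncomputable def L : Lt → List Lt → W
  | x, [] => single [x] 1
  | x, y :: w => if lhs x y then dl x y • single w 1 - ∑ p ∈ prs x y, (L p.2 w).sum fun z c =>
      if _h : z.length ≤ w.length then c • L p.1 z else c • single (p.1 :: z) 1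
    else single (x :: y :: w) 1
termination_by _ w => w.length
decreasing_by all_goals simp only [List.length_cons]; omega

abbrev Red (w : List Lt) : Prop := w.IsChain fun x y => ¬ lhs x y

def G (x : Lt) (w : List Lt) : Set (List Lt) := {z | (z.length < w.length ∨
  (z.length = w.length + 1 ∧ ∃ y t, z = y :: t ∧ y.1 = x.1)) ∧ (Red w → Red z)}

lemma supp (n : ℕ) : ∀ w : List Lt, w.length ≤ n → ∀ x, L x w ∈ supported ℚ ℚ (G x w) := by
  induction n with
  | zero =>
    intro w hw x
    obtain rfl : w = [] := List.length_eq_zero_iff.1 (by omega)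
    rw [L]
    exact single_mem_supported _ _ ⟨Or.inr ⟨rfl, x, [], rfl, rfl⟩, fun _ => List.isChain_singleton _⟩
  | succ n ih =>
    rintro (_ | ⟨y, w⟩) hw x
    · exact ih _ (Nat.zero_le _) x
    rw [List.length_cons] at hw
    rw [L]
    split_ifs with h
    · refine sub_mem (Submodule.smul_mem _ _ (single_mem_supported _ _ ⟨Or.inl (by simp), fun h => h.tail⟩))
        (sum_mem fun p hp => sum_mem fun z hz => ?_)
      obtain ⟨h1, h2⟩ := ih w (by omega) p.2 hz
      dsimp only
      split_ifs with hl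
      · refine Submodule.smul_mem _ _ (supported_mono (s := G p.1 z)
          (fun u hu => And.intro (Or.inl ?_) fun h => hu.2 (h2 h.tail)) (ih z (by omega) p.1))
        have := hu.1
        grind
      · obtain ⟨h3, y', t, rfl, h4⟩ := h1.resolve_left (by omega)
        exact Submodule.smul_mem _ _ (single_mem_supported _ _ ⟨Or.inr ⟨by simpa using h3, _, _, rfl,
          (F1 hp).1⟩, fun h' => List.isChain_cons_cons.2 ⟨F2 h hp (h4.trans (F1 hp).2), h2 h'.tail⟩⟩)
    · exact single_mem_supported _ _ ⟨Or.inr ⟨rfl, _, _, rfl, rfl⟩, fun h' =>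
        List.isChain_cons_cons.2 ⟨h, h'⟩⟩

noncomputable def Lin (x : Lt) : W →ₗ[ℚ] W := linearCombination ℚ (L x)

@[simp] lemma Lin_single (x : Lt) (w : List Lt) : Lin x (single w 1) = L x w := by simp [Lin]

lemma L_not {x : Lt} {w : List Lt} (h : ∀ y t, w = y :: t → ¬ lhs x y) : L x w = single (x :: w) 1 := by
  rcases w with _ | ⟨y, t⟩
  · rw [L]
  · rw [L, if_neg (h y t rfl)]

lemma L_lhs {x y : Lt} (h : lhs x y) (w : List Lt) :
    L x (y :: w) = dl x y • single w 1 - ∑ p ∈ prs x y, Lin p.1 (L p.2 w) := by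
  rw [L, if_pos h]
  refine congrArg _ (sum_congr rfl fun p hp => sum_congr rfl fun z hz => ?_)
  change dite (z.length ≤ w.length) _ _ = L p.2 w z • L p.1 z
  split_ifs with hl
  · rfl
  · obtain ⟨-, y', t, rfl, h4⟩ := (supp _ w le_rfl p.2 hz).1.resolve_left (by omega)
    rw [L, if_neg (F2 h hp (h4.trans (F1 hp).2))]

lemma LA (r : ZMod 4) (i j : Fin 3) (w : List Lt) : L (r, i, al r) ((r + 1, j, al r) :: w) =
    (if i = j then single w 1 else 0) - ∑ a ∈ univ.erase (al r), Lin (r, i, a) (L (r + 1, j, a) w) := by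
  have : isA (r, i, al r) (r + 1, j, al r) := ⟨rfl, rfl, rfl⟩
  rw [L_lhs (Or.inl this), dl, prs, if_pos this, if_pos this,
    sum_image fun a _ b _ h => by simpa using h]
  simp

lemma LB (r : ZMod 4) (a b : Fin 2) (w : List Lt) : L (r + 1, be r, a) ((r, be r, b) :: w) =
    (if a = b then single w 1 else 0) - ∑ i ∈ univ.erase (be r), Lin (r + 1, i, a) (L (r, i, b) w) := by
  have : ¬ isA (r + 1, be r, a) (r, be r, b) := fun h => two r h.1.symm
  rw [L_lhs (Or.inr ⟨rfl, rfl, rfl⟩), dl, prs, if_neg this, if_neg this,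
    sum_image fun a _ b _ h => by simpa using h]
  simp

lemma A0 (r : ZMod 4) (i j : Fin 3) {w : List Lt} (h : ∀ y t, w = y :: t → ¬ lhs (r + 1, j, al r) y) :
    ∑ a, Lin (r, i, a) (L (r + 1, j, a) w) = if i = j then single w 1 else 0 := by
  rw [← Finset.add_sum_erase _ _ (mem_univ (al r)), L_not h, Lin_single, LA, sub_add_cancel]

lemma B0 (r : ZMod 4) (a b : Fin 2) {w : List Lt} (h : ∀ y t, w = y :: t → ¬ lhs (r, be r, b) y) :
    ∑ i, Lin (r + 1, i, a) (L (r, i, b) w) = if a = b then single w 1 else 0 := by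
  rw [← Finset.add_sum_erase _ _ (mem_univ (be r)), L_not h, Lin_single, LB, sub_add_cancel]

lemma al_ne (r : ZMod 4) : al r ≠ al (r + 1) := by revert r; decide
lemma be_ne (r : ZMod 4) : be (r + 1) ≠ be r := by revert r; decide

lemma A1 (r : ZMod 4) (i : Fin 3) {j : Fin 3} (hj : j ≠ be r) (f : W) :
    ∑ a, Lin (r, i, a) (Lin (r + 1, j, a) f) = if i = j then f else 0 := by
  induction f using Finsupp.induction_linear with
  | zero => simp
  | add f g h1 h2 => simp only [map_add, sum_add_distrib, h1, h2]; split_ifs <;> simp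
  | single w c =>
    have := al_ne r
    simp only [← smul_single_one w c, map_smul, Lin_single, ← Finset.smul_sum]
    rw [A0 r i j fun y t _ => by grind]
    split_ifs <;> simp

lemma B1 (r : ZMod 4) (a : Fin 2) {b : Fin 2} (hb : b ≠ al r) (f : W) :
    ∑ i, Lin (r + 1, i, a) (Lin (r, i, b) f) = if a = b then f else 0 := by
  induction f using Finsupp.induction_linear with
  | zero => simp
  | add f g h1 h2 => simp only [map_add, sum_add_distrib, h1, h2]; split_ifs <;> simp
  | single w c =>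
    simp only [← smul_single_one w c, map_smul, Lin_single, ← Finset.smul_sum]
    rw [B0 r a b fun y t _ => by have := be_ne y.1; grind]
    split_ifs <;> simp

lemma A2 (r : ZMod 4) (i j : Fin 3) {w : List Lt} (h : Red w) :
    ∑ a, Lin (r, i, a) (L (r + 1, j, a) w) = if i = j then single w 1 else 0 := by
  by_cases h' : ∀ y t, w = y :: t → ¬ lhs (r + 1, j, al r) y
  · exact A0 r i j h'
  push Not at h'
  obtain ⟨⟨s, l, b⟩, t, rfl, h'⟩ := h'
  have := al_ne r
  obtain ⟨rfl, rfl, rfl⟩ : r = s ∧ j = be s ∧ l = be s := by grind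
  have e : L (r, be r, b) t = single ((r, be r, b) :: t) 1 :=
    L_not fun y u hu => (List.isChain_cons_cons.1 (hu ▸ h)).1
  simp only [LB, map_sub, map_sum, sum_sub_distrib, apply_ite (Lin _), map_zero, Lin_single,
    Finset.sum_ite_eq', mem_univ, if_true]
  rw [Finset.sum_comm, sum_congr rfl fun l hl => A1 r i (ne_of_mem_erase hl) _, Finset.sum_ite_eq]
  by_cases hi : i = be r <;> simp [hi, e]

lemma B2 (r : ZMod 4) (a b : Fin 2) {w : List Lt} (h : Red w) :
    ∑ i, Lin (r + 1, i, a) (L (r, i, b) w) = if a = b then single w 1 else 0 := by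
  by_cases h' : ∀ y t, w = y :: t → ¬ lhs (r, be r, b) y
  · exact B0 r a b h'
  push Not at h'
  obtain ⟨⟨s, l, c⟩, t, rfl, h'⟩ := h'
  have := be_ne s
  obtain ⟨rfl, rfl, rfl⟩ : s = r + 1 ∧ b = al r ∧ c = al r := by grind
  have e : L (r + 1, l, al r) t = single ((r + 1, l, al r) :: t) 1 :=
    L_not fun y u hu => (List.isChain_cons_cons.1 (hu ▸ h)).1
  simp only [LA, map_sub, map_sum, sum_sub_distrib, apply_ite (Lin _), map_zero, Lin_single,
    Finset.sum_ite_eq', mem_univ, if_true]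
  rw [Finset.sum_comm, sum_congr rfl fun c hc => B1 r a (ne_of_mem_erase hc) _, Finset.sum_ite_eq]
  by_cases ha : a = al r <;> simp [ha, e]

noncomputable abbrev V : Submodule ℚ W := supported ℚ ℚ {w | Red w}

lemma V_ind {p : W → Prop} (h1 : ∀ w, Red w → p (single w 1)) (h0 : p 0)
    (ha : ∀ f g, p f → p g → p (f + g)) (hs : ∀ (c : ℚ) f, p f → p (c • f)) {f : W} (h : f ∈ V) :
    p f := by
  rw [V, supported_eq_span_single] at h
  induction h using Submodule.span_induction with
  | mem f hf => obtain ⟨w, hw, rfl⟩ := hf; exact h1 w hw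
  | zero => exact h0
  | add f g _ _ p q => exact ha f g p q
  | smul c f _ p => exact hs c f p

noncomputable def U (x : Lt) : Module.End ℚ V := (Lin x).restrict fun f hf => by
  refine V_ind (p := fun f => Lin x f ∈ V) (fun w hw => ?_) (by simp) (fun f g p q => ?_)
    (fun c f p => ?_) hf
  · rw [Lin_single]; exact supported_mono (fun z hz => hz.2 hw) (supp _ w le_rfl x)
  · rw [map_add]; exact add_mem p q
  · rw [map_smul]; exact Submodule.smul_mem _ _ p

lemma UA (r : ZMod 4) (i j : Fin 3) :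
    ∑ a, U (r, i, a) * U (r + 1, j, a) = if i = j then 1 else 0 := by
  refine LinearMap.ext fun ⟨f, hf⟩ => Subtype.ext ?_
  have := V_ind (p := fun f => ∑ a, Lin (r, i, a) (Lin (r + 1, j, a) f) = if i = j then f else 0)
    (fun w hw => by simpa using A2 r i j hw) (by simp) (fun f g p q => by
      simp only [map_add, sum_add_distrib, p, q]; split_ifs <;> simp) (fun c f p => by
      simp only [map_smul, ← Finset.smul_sum, p]; split_ifs <;> simp) hf
  split_ifs at this ⊢ <;> simpa [U] using this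

lemma UB (r : ZMod 4) (a b : Fin 2) :
    ∑ i, U (r + 1, i, a) * U (r, i, b) = if a = b then 1 else 0 := by
  refine LinearMap.ext fun ⟨f, hf⟩ => Subtype.ext ?_
  have := V_ind (p := fun f => ∑ i, Lin (r + 1, i, a) (Lin (r, i, b) f) = if a = b then f else 0)
    (fun w hw => by simpa using B2 r a b hw) (by simp) (fun f g p q => by
      simp only [map_add, sum_add_distrib, p, q]; split_ifs <;> simp) (fun c f p => by
      simp only [map_smul, ← Finset.smul_sum, p]; split_ifs <;> simp) hf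
  split_ifs at this ⊢ <;> simpa [U] using this

def Good {B : Type} [Ring B] (Y : ZMod 4 → Matrix (Fin 5) (Fin 5) B) : Prop :=
  ∀ r, Y r * (Y (r + 1)).transpose = 1 ∧ (Y (r + 1)).transpose * Y r = 1

noncomputable def XX (r : ZMod 4) : Matrix (Fin 5) (Fin 5) (Module.End ℚ V) :=
  !![U (r, 0, 0), U (r, 0, 1), 0, 0, 0; U (r, 1, 0), U (r, 1, 1), 0, 0, 0;
    U (r, 2, 0), U (r, 2, 1), 0, 0, 0; 0, 0, U (-r, 0, 0), U (-r, 1, 0), U (-r, 2, 0);
    0, 0, U (-r, 0, 1), U (-r, 1, 1), U (-r, 2, 1)]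

lemma good_XX : Good XX := fun r => by
  have a1 := UA r
  have b1 := UB r
  have a2 := UA (-(r + 1))
  have b2 := UB (-(r + 1))
  rw [show -(r + 1) + 1 = -r by ring] at a2 b2
  simp only [Fin.sum_univ_two, Fin.sum_univ_three] at a1 b1 a2 b2
  constructor <;> ext1 p q <;> fin_cases p <;> fin_cases q <;>
    simp [XX, Matrix.mul_apply, Fin.sum_univ_five, a1, b1, a2, b2, -neg_add_rev]

lemma XX0 (r : ZMod 4) (p q : Fin 5) (hp : p ≤ 2) (hq : 2 ≤ q) : XX r p q = 0 := by
  fin_cases p <;> fin_cases q <;> simp_all [XX]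

lemma dual : ∃ (v : ℕ → V) (f : ℕ → V →ₗ[ℚ] ℚ), ∀ i j, f i (v j) = if i = j then 1 else 0 :=
  ⟨fun j => ⟨single (List.replicate j 0) 1, single_mem_supported _ _
    (List.isChain_replicate_of_rel j (by decide))⟩,
    fun i => lapply (List.replicate i 0) ∘ₗ V.subtype, fun i j => by
      simp [single_apply, eq_comm]⟩

end Pool.Agent.H.MP_f1c158_al
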